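import Pool.Agent.Helper30.UB.St
import Pool.Agent.Helper62.FC.M_DKR

/-!
# Project UB, module FUB: the upper bound for every shift
-/

set_option autoImplicit false

namespace Pool.Agent.Helper97.UB

open Polynomial Finset Pool.Agent.Helper15.FC Pool.Agent.Helper30.UB

section

variable {F : Type} [Field F] [Fintype F]

private theorem qr_pos : 0 < qr F := by
  have h : 0 < Fintype.card F := Fintype.card_pos
  exact_mod_cast h

private theorem one_lt_qr : 1 < qr F := by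
  have h : 1 < Fintype.card F := Fintype.one_lt_card
  exact_mod_cast h

private theorem dv_eq {n : ℕ} {f : F[X]} (hf : f ∈ Mn F n) :
    Dv f = @Finset.filter _ (fun d => d ∣ f) (Classical.decPred _) (Ml F n) := by
  classical
  have h := (mem_Mn.1 hf).2
  unfold Dv Ml
  rw [h]

private theorem add_mem {n : ℕ} {f h : F[X]} (hf : f ∈ Mn F n) (hn : h.natDegree < n) :
    f + h ∈ Mn F n := by
  obtain ⟨h1, h2⟩ := mem_Mn.1 hf
  have hd : h.degree < f.degree := by
    rw [Polynomial.degree_eq_natDegree h1.ne_zero, h2]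
    exact lt_of_le_of_lt Polynomial.degree_le_natDegree (by exact_mod_cast hn)
  exact mem_Mn.2 ⟨h1.add_of_left hd, by rw [Polynomial.natDegree_add_eq_left_of_degree_lt hd, h2]⟩

open scoped Classical in
private theorem swap_sum (n : ℕ) (h : F[X]) (hn : h.natDegree < n) (w w' : F[X] → ℝ) :
    ∑ f ∈ Mn F n, (∑ A ∈ Dv f, w A) * (∑ B ∈ Dv (f + h), w' B) =
      ∑ A ∈ Ml F n, ∑ B ∈ Ml F n, w A * w' B *
        (Nat.card {f : F[X] // f ∈ Mn F n ∧ A ∣ f ∧ B ∣ f + h} : ℝ) := by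
  have h1 : ∀ f ∈ Mn F n, (∑ A ∈ Dv f, w A) * (∑ B ∈ Dv (f + h), w' B) =
      ∑ A ∈ Ml F n, ∑ B ∈ Ml F n, w A * w' B * (if A ∣ f ∧ B ∣ f + h then 1 else 0) := by
    intro f hf
    rw [dv_eq hf, dv_eq (add_mem hf hn), Finset.sum_filter, Finset.sum_filter, Finset.sum_mul_sum]
    refine Finset.sum_congr rfl fun A _ => Finset.sum_congr rfl fun B _ => ?_
    by_cases hA : A ∣ f
    · by_cases hB : B ∣ f + h
      · simp [hA, hB]
      · simp [hA, hB]
    · simp [hA]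
  rw [Finset.sum_congr rfl h1, Finset.sum_comm]
  refine Finset.sum_congr rfl fun A _ => ?_
  rw [Finset.sum_comm]
  refine Finset.sum_congr rfl fun B _ => ?_
  rw [← Finset.mul_sum, ← Finset.sum_filter, Finset.sum_const, nsmul_eq_mul, mul_one,
    Nat.subtype_card ((Mn F n).filter (fun f => A ∣ f ∧ B ∣ f + h)) (fun f => by
      rw [Finset.mem_filter])]

open scoped Classical in
private theorem main_sum (hN : Pool.Agent.Helper30.UB.StCNT) (n : ℕ) (h : F[X]) (hh : h ≠ 0) (w w' : F[X] → ℝ)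
    (hw0 : ∀ A, 0 ≤ w A) (hw0' : ∀ A, 0 ≤ w' A)
    (hw : ∀ A, w A ≠ 0 → A.Monic ∧ 2 * A.natDegree ≤ n)
    (hw' : ∀ A, w' A ≠ 0 → A.Monic ∧ 2 * A.natDegree ≤ n) :
    ∑ A ∈ Ml F n, ∑ B ∈ Ml F n, w A * w' B *
        (Nat.card {f : F[X] // f ∈ Mn F n ∧ A ∣ f ∧ B ∣ f + h} : ℝ) ≤
      ∑ g ∈ Dv h, qr F ^ g.natDegree * qr F ^ n *
        ((∑ A ∈ (Ml F n).filter (fun A => g ∣ A), w A / qr F ^ A.natDegree) *
          (∑ B ∈ (Ml F n).filter (fun B => g ∣ B), w' B / qr F ^ B.natDegree)) := by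
  have h1 : ∀ A ∈ Ml F n, ∀ B ∈ Ml F n, w A * w' B *
      (Nat.card {f : F[X] // f ∈ Mn F n ∧ A ∣ f ∧ B ∣ f + h} : ℝ) ≤
      ∑ g ∈ Dv h, qr F ^ g.natDegree * qr F ^ n *
        ((if g ∣ A then w A / qr F ^ A.natDegree else 0) *
          (if g ∣ B then w' B / qr F ^ B.natDegree else 0)) := by
    intro A _ B _
    have hnn : 0 ≤ ∑ g ∈ Dv h, qr F ^ g.natDegree * qr F ^ n *
        ((if g ∣ A then w A / qr F ^ A.natDegree else 0) *
          (if g ∣ B then w' B / qr F ^ B.natDegree else 0)) := by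
      refine Finset.sum_nonneg fun g _ => ?_
      have hq := qr_pos (F := F)
      have e1 : 0 ≤ (if g ∣ A then w A / qr F ^ A.natDegree else 0) := by
        split_ifs
        · exact div_nonneg (hw0 A) (by positivity)
        · exact le_rfl
      have e2 : 0 ≤ (if g ∣ B then w' B / qr F ^ B.natDegree else 0) := by
        split_ifs
        · exact div_nonneg (hw0' B) (by positivity)
        · exact le_rfl
      positivity
    by_cases hA : w A = 0
    · rw [hA, zero_mul, zero_mul]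
      rw [hA] at hnn
      exact hnn
    by_cases hB : w' B = 0
    · rw [hB, mul_zero, zero_mul]
      rw [hB] at hnn
      exact hnn
    obtain ⟨a1, a2⟩ := hw A hA
    obtain ⟨b1, b2⟩ := hw' B hB
    have h2 := hN F n A B h a1 b1 hh (by omega)
    refine (mul_le_mul_of_nonneg_left h2 (mul_nonneg (hw0 A) (hw0' B))).trans (le_of_eq ?_)
    rw [Finset.mul_sum]
    refine Finset.sum_congr rfl fun g _ => ?_
    by_cases hgA : g ∣ A
    · by_cases hgB : g ∣ B
      · rw [if_pos ⟨hgA, hgB⟩, if_pos hgA, if_pos hgB]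
        have hq := qr_pos (F := F)
        field_simp
      · rw [if_neg (fun h => hgB h.2), if_neg hgB, mul_zero, mul_zero, mul_zero]
    · rw [if_neg (fun h => hgA h.1), if_neg hgA, zero_mul, mul_zero, mul_zero]
  refine (Finset.sum_le_sum fun A hA => Finset.sum_le_sum fun B hB => h1 A hA B hB).trans
    (le_of_eq ?_)
  rw [Finset.sum_congr rfl fun A _ => Finset.sum_comm, Finset.sum_comm]
  refine Finset.sum_congr rfl fun g _ => ?_
  rw [Finset.sum_filter, Finset.sum_filter, Finset.sum_mul_sum, Finset.mul_sum]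
  refine Finset.sum_congr rfl fun A _ => ?_
  rw [Finset.mul_sum]

private theorem zn_ge (h : F[X]) {n : ℕ} (hn : Fintype.card F ^ h.natDegree ≤ n) :
    (h.natDegree : ℝ) ≤ Zn F n := by
  unfold Zn
  have h1 : 0 < Real.log (qr F) := Real.log_pos one_lt_qr
  rw [le_div_iff₀ h1, ← Real.log_pow]
  refine Real.log_le_log (pow_pos qr_pos _) ?_
  exact_mod_cast hn

end

open scoped Classical in
/-- FUB. -/
theorem hFUB (hM : Pool.Agent.Helper30.UB.StMAJ) (hE : StEXC) (hN : Pool.Agent.Helper30.UB.StCNT) : StFUB := by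
  intro k l hk hl
  obtain ⟨C, hC, hMk⟩ := hM k hk
  obtain ⟨C', hC', hMl⟩ := hM l hl
  refine ⟨C * C' + 2, by positivity, ?_⟩
  intro F _ _ h hh
  obtain ⟨n1, hn1⟩ := hMk F
  obtain ⟨n2, hn2⟩ := hMl F
  obtain ⟨n3, hn3⟩ := hE F k l h hh
  refine ⟨max (max n1 n2) (max n3 (max (h.natDegree + 1) (Fintype.card F ^ h.natDegree))), ?_⟩
  intro n hn
  have m1 : n1 ≤ n := (le_max_left _ _).trans ((le_max_left _ _).trans hn)
  have m2 : n2 ≤ n := (le_max_right _ _).trans ((le_max_left _ _).trans hn)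
  have m3 : n3 ≤ n := (le_max_left _ _).trans ((le_max_right _ _).trans hn)
  have m4 : h.natDegree + 1 ≤ n :=
    (le_max_left _ _).trans ((le_max_right _ _).trans ((le_max_right _ _).trans hn))
  have m5 : Fintype.card F ^ h.natDegree ≤ n :=
    (le_max_right _ _).trans ((le_max_right _ _).trans ((le_max_right _ _).trans hn))
  obtain ⟨w, hw0, hw, hwg, hwf⟩ := hn1 n m1
  obtain ⟨w', hw0', hw', hwg', hwf'⟩ := hn2 n m2
  obtain ⟨e1, e2⟩ := hn3 n m3
  have hq := qr_pos (F := F)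
  have hn0 : (1 : ℝ) ≤ n := by exact_mod_cast (by omega : 1 ≤ n)
  set S : ℝ := ∑ g ∈ Dv h, (dk k g : ℝ) * (dk l g : ℝ) / qr F ^ g.natDegree with hS
  -- the sum is at least one
  have hS1 : 1 ≤ S := by
    have hdk := (Pool.Agent.Helper62.FC.hDKR F).2.2.2
    have hmem : (1 : F[X]) ∈ Dv h := (mem_Dv hh).2 ⟨monic_one, one_dvd _⟩
    have h1 : (dk k (1 : F[X]) : ℝ) * (dk l (1 : F[X]) : ℝ) / qr F ^ (1 : F[X]).natDegree ≤ S :=
      Finset.single_le_sum (f := fun g : F[X] => (dk k g : ℝ) * (dk l g : ℝ) / qr F ^ g.natDegree)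
        (fun g _ => by positivity) hmem
    refine le_trans ?_ h1
    rw [natDegree_one, pow_zero, div_one]
    have a1 : (1 : ℝ) ≤ dk k (1 : F[X]) := by exact_mod_cast hdk k 1 monic_one hk
    have a2 : (1 : ℝ) ≤ dk l (1 : F[X]) := by exact_mod_cast hdk l 1 monic_one hl
    nlinarith
  -- splitting
  have hsplit : ∑ f ∈ Mn F n, (dk k f : ℝ) * (dk l (f + h) : ℝ) ≤
      ∑ f ∈ (Mn F n).filter (fun f => (n : ℝ) / 16 ≤ (DD 0 (Zn F n) f : ℝ)),
        (dk k f : ℝ) * (dk l (f + h) : ℝ) +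
      ∑ f ∈ (Mn F n).filter (fun f => (n : ℝ) / 16 ≤ (DD 0 (Zn F n) (f + h) : ℝ)),
        (dk k f : ℝ) * (dk l (f + h) : ℝ) +
      ∑ f ∈ Mn F n, (∑ A ∈ Dv f, w A) * (∑ B ∈ Dv (f + h), w' B) := by
    rw [Finset.sum_filter, Finset.sum_filter, ← Finset.sum_add_distrib, ← Finset.sum_add_distrib]
    refine Finset.sum_le_sum fun f hf => ?_
    have p1 : 0 ≤ (dk k f : ℝ) * (dk l (f + h) : ℝ) := by positivity
    have p2 : 0 ≤ ∑ A ∈ Dv f, w A := Finset.sum_nonneg fun A _ => hw0 A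
    have p3 : 0 ≤ ∑ B ∈ Dv (f + h), w' B := Finset.sum_nonneg fun B _ => hw0' B
    have p4 : 0 ≤ (∑ A ∈ Dv f, w A) * (∑ B ∈ Dv (f + h), w' B) := mul_nonneg p2 p3
    by_cases c1 : (n : ℝ) / 16 ≤ (DD 0 (Zn F n) f : ℝ)
    · rw [if_pos c1]
      have p5 : 0 ≤ (if (n : ℝ) / 16 ≤ (DD 0 (Zn F n) (f + h) : ℝ) then
          (dk k f : ℝ) * (dk l (f + h) : ℝ) else 0) := by
        split_ifs
        · exact p1
        · exact le_rfl
      linarith
    · by_cases c2 : (n : ℝ) / 16 ≤ (DD 0 (Zn F n) (f + h) : ℝ)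
      · rw [if_neg c1, if_pos c2]
        linarith
      · rw [if_neg c1, if_neg c2, zero_add, zero_add]
        exact mul_le_mul (hwf f hf (not_le.1 c1)) (hwf' (f + h) (add_mem hf (by omega)) (not_le.1 c2))
          (Nat.cast_nonneg _) p2
  -- the main part
  have hmain : ∑ f ∈ Mn F n, (∑ A ∈ Dv f, w A) * (∑ B ∈ Dv (f + h), w' B) ≤
      C * C' * S * qr F ^ n * (n : ℝ) ^ (k + l - 2) := by
    rw [swap_sum n h (by omega) w w']
    refine (main_sum hN n h hh w w' hw0 hw0' hw hw').trans ?_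
    have e3 : C * C' * S * qr F ^ n * (n : ℝ) ^ (k + l - 2) =
        ∑ g ∈ Dv h, qr F ^ g.natDegree * qr F ^ n *
          ((C * ((dk k g : ℝ) / qr F ^ g.natDegree) * (n : ℝ) ^ (k - 1)) *
            (C' * ((dk l g : ℝ) / qr F ^ g.natDegree) * (n : ℝ) ^ (l - 1))) := by
      have e4 : (n : ℝ) ^ (k + l - 2) = (n : ℝ) ^ (k - 1) * (n : ℝ) ^ (l - 1) := by
        rw [← pow_add]
        congr 1
        omega
      rw [hS, e4, Finset.mul_sum, Finset.sum_mul, Finset.sum_mul]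
      refine Finset.sum_congr rfl fun g _ => ?_
      field_simp
    rw [e3]
    refine Finset.sum_le_sum fun g hg => ?_
    obtain ⟨g1, g2⟩ := (mem_Dv hh).1 hg
    have g3 : (g.natDegree : ℝ) ≤ Zn F n := by
      refine le_trans ?_ (zn_ge h m5)
      exact_mod_cast Polynomial.natDegree_le_of_dvd g2 hh
    refine mul_le_mul_of_nonneg_left ?_ (by positivity)
    refine mul_le_mul (hwg g g1 g3) (hwg' g g1 g3) ?_ (by positivity)
    exact Finset.sum_nonneg fun B _ => div_nonneg (hw0' B) (by positivity)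
  have hcast : ((∑ f ∈ Mn F n, dk k f * dk l (f + h) : ℕ) : ℝ) =
      ∑ f ∈ Mn F n, (dk k f : ℝ) * (dk l (f + h) : ℝ) := by
    push_cast
    rfl
  rw [hcast]
  have hlast : 2 * qr F ^ n ≤ 2 * S * qr F ^ n * (n : ℝ) ^ (k + l - 2) := by
    have p1 : 1 ≤ (n : ℝ) ^ (k + l - 2) := one_le_pow₀ hn0
    have p2 : 0 < qr F ^ n := by positivity
    have p3 : 1 ≤ S * (n : ℝ) ^ (k + l - 2) := by nlinarith
    nlinarith
  calc ∑ f ∈ Mn F n, (dk k f : ℝ) * (dk l (f + h) : ℝ)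
      ≤ _ := hsplit
    _ ≤ qr F ^ n + qr F ^ n + C * C' * S * qr F ^ n * (n : ℝ) ^ (k + l - 2) :=
        add_le_add (add_le_add e1 e2) hmain
    _ ≤ (C * C' + 2) * S * qr F ^ n * (n : ℝ) ^ (k + l - 2) := by linarith

end Pool.Agent.Helper97.UB
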